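import Pool.Agent.W601.RP.Stm2

set_option autoImplicit false
open scoped Classical
open Filter Topology

namespace Pool.Agent.W140.RP.Kill1

open Pool.Agent.W601.RP

theorem big (F : ℕ → Finset (ℕ → ℕ)) (c : ℕ → (ℕ → ℕ) → ℤ)
    (hc : ∀ C : ℕ, ∃ j, ∃ q ∈ F j, C < (c j q).natAbs) (j0 C : ℕ) :
    ∃ j, j0 < j ∧ ∃ q ∈ F j, C < (c j q).natAbs := by
  obtain ⟨j, q, hq, h⟩ := hc (C + ∑ j ∈ Finset.range (j0 + 1), ∑ q ∈ F j, (c j q).natAbs)
  refine ⟨j, ?_, q, hq, by omega⟩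
  by_contra hj
  have h1 : (c j q).natAbs ≤ ∑ q ∈ F j, (c j q).natAbs :=
    Finset.single_le_sum (f := fun q => (c j q).natAbs) (fun _ _ => Nat.zero_le _) hq
  have h2 : ∑ q ∈ F j, (c j q).natAbs ≤
      ∑ j ∈ Finset.range (j0 + 1), ∑ q ∈ F j, (c j q).natAbs :=
    Finset.single_le_sum (f := fun j => ∑ q ∈ F j, (c j q).natAbs) (fun _ _ => Nat.zero_le _)
      (Finset.mem_range.mpr (by omega))
  omega

theorem kill1 : S_BR → S_MKL → S_KILL1 := by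
  intro hBR hMKL F c hF hc
  have step : ∀ s : ℕ × ℕ × ℕ, ∃ r : ℕ × (ℕ → ℕ) × ℕ, s.1 < r.1 ∧
      s.2.1 < (c r.1 r.2.1).natAbs ∧ s.2.2 < r.2.2 ∧
      GoodL (mkL (F r.1) (c r.1) r.2.1 r.2.2) ∧
      nL (mkL (F r.1) (c r.1) r.2.1 r.2.2) = r.2.2 ∧
      ∀ t, IsNode t → lt t = mkL (F r.1) (c r.1) r.2.1 r.2.2 →
        ‖(∑ q ∈ F r.1, c r.1 q • x q) t‖ = 1 / 2 := by
    intro s
    obtain ⟨j, hj, q, hq, hC⟩ := big F c hc s.1 s.2.1
    obtain ⟨n0, hn0⟩ := hMKL (F j) (c j) q (hF j) hq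
    obtain ⟨h1, h2, _, h4⟩ := hn0 (max n0 (s.2.2 + 1)) (le_max_left _ _)
    exact ⟨(j, q, max n0 (s.2.2 + 1)), hj, hC, lt_of_lt_of_le (Nat.lt_succ_self _)
      (le_max_right _ _), h1, h2, h4⟩
  choose r hr1 hr2 hr3 hr4 hr5 hr6 using step
  let g : ℕ → ℕ × (ℕ → ℕ) × ℕ := fun m =>
    Nat.rec (r (0, 0, 0)) (fun _ s => r (s.1, (c s.1 s.2.1).natAbs, s.2.2)) m
  have g0 : g 0 = r (0, 0, 0) := rfl
  have gs : ∀ m, g (m + 1) = r ((g m).1, (c (g m).1 (g m).2.1).natAbs, (g m).2.2) := fun m => rfl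
  have hg : ∀ m, ∃ s, g m = r s := by
    intro m
    cases m with
    | zero => exact ⟨_, g0⟩
    | succ m => exact ⟨_, gs m⟩
  have m1 : StrictMono (fun m => (g m).1) := by
    refine strictMono_nat_of_lt_succ fun m => ?_
    have h := hr1 ((g m).1, (c (g m).1 (g m).2.1).natAbs, (g m).2.2)
    rw [← gs m] at h
    exact h
  have m2 : StrictMono (fun m => (c (g m).1 (g m).2.1).natAbs) := by
    refine strictMono_nat_of_lt_succ fun m => ?_
    have h := hr2 ((g m).1, (c (g m).1 (g m).2.1).natAbs, (g m).2.2)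
    rw [← gs m] at h
    exact h
  have m3 : StrictMono (fun m => (g m).2.2) := by
    refine strictMono_nat_of_lt_succ fun m => ?_
    have h := hr3 ((g m).1, (c (g m).1 (g m).2.1).natAbs, (g m).2.2)
    rw [← gs m] at h
    exact h
  have good : ∀ m, GoodL (mkL (F (g m).1) (c (g m).1) (g m).2.1 (g m).2.2) := by
    intro m
    obtain ⟨s, hs⟩ := hg m
    rw [hs]
    exact hr4 s
  have len : ∀ m, nL (mkL (F (g m).1) (c (g m).1) (g m).2.1 (g m).2.2) = (g m).2.2 := by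
    intro m
    obtain ⟨s, hs⟩ := hg m
    rw [hs]
    exact hr5 s
  have val : ∀ m, ∀ t, IsNode t → lt t = mkL (F (g m).1) (c (g m).1) (g m).2.1 (g m).2.2 →
      ‖(∑ q ∈ F (g m).1, c (g m).1 q • x q) t‖ = 1 / 2 := by
    intro m
    obtain ⟨s, hs⟩ := hg m
    rw [hs]
    exact hr6 s
  obtain ⟨t, ht1, ht2, ht3⟩ := hBR (fun m => mkL (F (g m).1) (c (g m).1) (g m).2.1 (g m).2.2)
    good (by
      intro m m' hm
      refine ⟨?_, fun _ => ?_⟩
      · rw [len m, len m']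
        exact m3 hm
      · exact m2 hm)
  refine ⟨Set.range t, Set.infinite_range_of_injective ht1, ht2, fun m => ?_⟩
  exact ⟨(g m).1, m1.id_le m, t m, ⟨m, rfl⟩, val m (t m) (ht3 m).1 (ht3 m).2⟩

end Pool.Agent.W140.RP.Kill1
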