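import Pool.Agent.W712.RP.Stm

/-!
RP-DEF: Efron's formula for the volume deficit.
-/

set_option autoImplicit false

open MeasureTheory Set Filter Topology
open scoped ENNReal

namespace Pool.Agent.W140.RP
open Pool.Agent.W712.RP

theorem deficit : S_MH → S_DEF := by
  intro hMH E _ _ _ _ _ μ _ L hL n
  have : ProperSpace E := FiniteDimensional.proper ℝ E
  have hL0 : μ L ≠ 0 := by
    obtain ⟨x, hx⟩ := hL.interior_nonempty
    exact ((isOpen_interior.measure_pos μ ⟨x, hx⟩).trans_le (measure_mono interior_subset)).ne'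
  have hLt : μ L ≠ ⊤ := hL.compact.measure_lt_top.ne
  have hLm : MeasurableSet L := hL.compact.isClosed.measurableSet
  have hP1 : IsProbabilityMeasure (unif μ L) := by
    refine ⟨?_⟩
    unfold unif
    rw [Measure.smul_apply, Measure.restrict_apply_univ, smul_eq_mul]
    exact ENNReal.inv_mul_cancel hL0 hLt
  set P : Measure E := unif μ L with hP
  set N : Measure (Fin n → E) := Measure.pi fun _ : Fin n => P with hN
  set C : Set ((Fin n → E) × E) := {p | p.2 ∈ convexHull ℝ (Set.range p.1)} with hC
  have hCm : MeasurableSet C := (hMH E n).measurableSet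
  have hPL : ∀ᵐ z ∂P, z ∈ L := by
    rw [hP, unif]
    refine Measure.ae_smul_measure ?_ _
    exact ae_restrict_mem hLm
  have hNL : ∀ᵐ x ∂N, ∀ i, x i ∈ L := by
    rw [ae_all_iff]
    intro i
    exact (measurePreserving_eval (fun _ : Fin n => P) i).quasiMeasurePreserving.ae hPL
  have hsub : ∀ x : Fin n → E, (∀ i, x i ∈ L) → convexHull ℝ (Set.range x) ⊆ L := by
    intro x hx
    refine convexHull_min ?_ hL.convex
    rintro _ ⟨i, rfl⟩
    exact hx i
  have hval : ∀ᵐ x ∂N, μ (convexHull ℝ (Set.range x)) =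
      μ L * P (Prod.mk x ⁻¹' C) := by
    filter_upwards [hNL] with x hx
    have h1 : Prod.mk x ⁻¹' C = convexHull ℝ (Set.range x) := rfl
    rw [h1, hP, unif, Measure.smul_apply, smul_eq_mul, ← mul_assoc,
      ENNReal.mul_inv_cancel hL0 hLt, one_mul, Measure.restrict_eq_self _ (hsub x hx)]
  have hmeasμ : Measurable fun x : Fin n → E => μ (convexHull ℝ (Set.range x)) :=
    measurable_measure_prodMk_left (ν := μ) hCm
  have hmeasP : Measurable fun x : Fin n → E => P (Prod.mk x ⁻¹' C) :=
    measurable_measure_prodMk_left (ν := P) hCm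
  have hle : ∀ᵐ x ∂N, μ (convexHull ℝ (Set.range x)) ≤ μ L := by
    filter_upwards [hNL] with x hx
    exact measure_mono (hsub x hx)
  have hint : Integrable (fun x : Fin n → E => (μ (convexHull ℝ (Set.range x))).toReal) N := by
    refine Integrable.mono' (integrable_const (μ L).toReal)
      hmeasμ.ennreal_toReal.aestronglyMeasurable ?_
    filter_upwards [hle] with x hx
    rw [Real.norm_of_nonneg ENNReal.toReal_nonneg]
    exact ENNReal.toReal_mono hLt hx
  refine ⟨hint, ?_⟩
  have h1 : ∫ x : Fin n → E, (μ (convexHull ℝ (Set.range x))).toReal ∂N =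
      (∫⁻ x, μ (convexHull ℝ (Set.range x)) ∂N).toReal := by
    refine integral_toReal hmeasμ.aemeasurable ?_
    filter_upwards [hle] with x hx
    exact hx.trans_lt hLt.lt_top
  have h2 : ∫⁻ x, μ (convexHull ℝ (Set.range x)) ∂N = μ L * (N.prod P) C := by
    rw [lintegral_congr_ae hval, lintegral_const_mul _ hmeasP, Measure.prod_apply hCm]
  have h3 : outP μ L n = (N.prod P) Cᶜ := by
    rw [Measure.prod_apply_symm hCm.compl]
    rfl
  have h4 : (N.prod P) C = 1 - (N.prod P) Cᶜ := by
    have := prob_compl_eq_one_sub (μ := N.prod P) hCm.compl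
    rwa [compl_compl] at this
  have h5 : (N.prod P) Cᶜ ≤ 1 := prob_le_one
  rw [h1, h2, h3, h4, ENNReal.toReal_mul, ENNReal.toReal_sub_of_le h5 ENNReal.one_ne_top,
    ENNReal.toReal_one]
  ring

end Pool.Agent.W140.RP
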