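import Pool.Agent.W829.RP.Defs

/-!
RP-HC: the incidence set of the convex hull is closed.
-/

set_option autoImplicit false

open MeasureTheory Set Filter Topology
open scoped ENNReal

namespace Pool.Agent.W140.RP

theorem mem_hull_iff {V : Type} [NormedAddCommGroup V] [NormedSpace ℝ V] {n : ℕ}
    (ω : Fin n → V) (x : V) :
    x ∈ convexHull ℝ (range ω) ↔ ∃ w ∈ stdSimplex ℝ (Fin n), ∑ i, w i • ω i = x := by
  constructor
  · intro hx
    rw [convexHull_range_eq_exists_affineCombination] at hx
    obtain ⟨s, w, hw0, hw1, rfl⟩ := hx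
    refine ⟨fun i => if i ∈ s then w i else 0, ⟨?_, ?_⟩, ?_⟩
    · intro i
      by_cases hi : i ∈ s
      · simp only [hi, if_true]; exact hw0 i hi
      · simp [hi]
    · rw [Finset.sum_ite_mem, Finset.univ_inter]
      exact hw1
    · rw [Finset.affineCombination_eq_linear_combination _ _ _ hw1]
      simp only [ite_smul, zero_smul]
      rw [Finset.sum_ite_mem, Finset.univ_inter]
  · rintro ⟨w, ⟨hw0, hw1⟩, rfl⟩
    exact (convex_convexHull ℝ (range ω)).sum_mem (fun i _ => hw0 i) hw1
      (fun i _ => subset_convexHull ℝ _ (mem_range_self i))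

open Pool.Agent.W829.RP

theorem hc : S_HC := by
  intro V _ _ _ n
  have : CompactSpace (stdSimplex ℝ (Fin n)) :=
    isCompact_iff_compactSpace.mp (isCompact_stdSimplex ℝ (Fin n))
  set A : Set (stdSimplex ℝ (Fin n) × (V × (Fin n → V))) :=
    {q | ∑ i, (q.1 : Fin n → ℝ) i • q.2.2 i = q.2.1} with hA
  have hAc : IsClosed A := by
    apply isClosed_eq
    · refine continuous_finsetSum _ fun i _ => ?_
      refine Continuous.smul ?_ ?_
      · exact (continuous_apply i).comp (continuous_subtype_val.comp continuous_fst)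
      · exact (continuous_apply i).comp (continuous_snd.comp continuous_snd)
    · exact continuous_fst.comp continuous_snd
  have h := isClosedMap_snd_of_compactSpace (X := stdSimplex ℝ (Fin n)) (Y := V × (Fin n → V)) A hAc
  have heq : (Prod.snd '' A : Set (V × (Fin n → V))) = {p | p.1 ∈ hull p.2} := by
    ext p
    constructor
    · rintro ⟨q, hq, rfl⟩
      show q.2.1 ∈ convexHull ℝ (range q.2.2)
      rw [mem_hull_iff]
      exact ⟨q.1, q.1.2, hq⟩
    · intro hp
      have hp' : p.1 ∈ convexHull ℝ (range p.2) := hp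
      rw [mem_hull_iff] at hp'
      obtain ⟨w, hw, hw2⟩ := hp'
      exact ⟨(⟨w, hw⟩, p), hw2, rfl⟩
  rw [← heq]
  exact h

end Pool.Agent.W140.RP
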